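import Pool.Agent.W120.WM.Defs2

set_option autoImplicit false

open MeasureTheory Filter Topology Set

namespace Pool.Agent.W806.WM

open Pool.Agent.W120.WM

/-- the point -/
noncomputable def pp (d t : ℝ) : ℂ := ⟨1 / 2 + d, t⟩

lemma pp_cont : Continuous (fun z : ℝ × ℝ => pp z.1 z.2) := by
  have : (fun z : ℝ × ℝ => pp z.1 z.2) = fun z : ℝ × ℝ =>
      (((1 / 2 + z.1 : ℝ) : ℂ)) + ((z.2 : ℝ) : ℂ) * Complex.I := by
    funext z
    apply Complex.ext <;> simp [pp]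
  rw [this]
  fun_prop

lemma EE_le (h δ t : ℝ) (hδ : 0 < δ) (hδ1 : δ < 1 / 2) :
    ‖EE h 0 (pp δ t)‖ ^ 2 ≤ Real.exp (h ^ 2) := by
  unfold EE
  rw [Complex.norm_exp, ← Real.exp_nat_mul]
  apply Real.exp_le_exp.2
  have e1 : ((h : ℂ) ^ 2 / 2 * (pp δ t) ^ 2 + ((0 : ℝ) : ℂ) * pp δ t).re =
      h ^ 2 / 2 * ((1 / 2 + δ) ^ 2 - t ^ 2) := by
    have : (h : ℂ) ^ 2 / 2 = ((h ^ 2 / 2 : ℝ) : ℂ) := by push_cast; ring
    rw [this, Complex.ofReal_zero, zero_mul, add_zero, Complex.re_ofReal_mul]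
    congr 1
    simp only [pp, sq, Complex.mul_re]
  rw [e1]
  push_cast
  have h1 : (1 / 2 + δ) ^ 2 - t ^ 2 ≤ 1 := by nlinarith [sq_nonneg t]
  nlinarith [sq_nonneg h]

lemma local_bd (y : ℝ) (hz : riemannZeta (⟨1 / 2, y⟩ : ℂ) = 0)
    (hd : deriv riemannZeta (⟨1 / 2, y⟩ : ℂ) ≠ 0) (e : ℝ) (he : 0 < e) :
    ∃ η : ℝ, 0 < η ∧ ∀ δ t : ℝ, 0 < δ → δ < η → |t - y| < η →
      ‖(pp δ t * riemannZeta (pp δ t))⁻¹‖ ^ 2 ≤ (Ac y ^ 2 + e) / (δ ^ 2 + (t - y) ^ 2) := by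
  set ρ : ℂ := ⟨1 / 2, y⟩ with hρ
  have hρ1 : ρ ≠ 1 := by
    intro h
    have := congrArg Complex.re h
    simp [hρ] at this
  have hρ0 : ρ ≠ 0 := by
    intro h
    have := congrArg Complex.re h
    simp [hρ] at this
  have h1 : HasDerivAt (fun s : ℂ => s * riemannZeta s) (ρ * deriv riemannZeta ρ) ρ := by
    have := (hasDerivAt_id ρ).mul (differentiableAt_riemannZeta hρ1).hasDerivAt
    simp only [id_eq, one_mul, hz, zero_add] at this
    exact this
  have hD : ρ * deriv riemannZeta ρ ≠ 0 := mul_ne_zero hρ0 hd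
  have h2 := hasDerivAt_iff_tendsto_slope.1 h1
  have h3 : Tendsto (fun s => (‖slope (fun s : ℂ => s * riemannZeta s) ρ s‖⁻¹) ^ 2) (𝓝[≠] ρ)
      (𝓝 (Ac y ^ 2)) := by
    have h4 : Ac y ^ 2 = (‖ρ * deriv riemannZeta ρ‖⁻¹) ^ 2 := by
      unfold Ac
      rw [one_div]
    rw [h4]
    exact ((h2.norm).inv₀ (norm_ne_zero_iff.2 hD)).pow 2
  have h5 := h3.eventually (gt_mem_nhds (by linarith : Ac y ^ 2 < Ac y ^ 2 + e))
  rw [eventually_nhdsWithin_iff, Metric.eventually_nhds_iff] at h5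
  obtain ⟨r, hr, h6⟩ := h5
  refine ⟨r / 2, by positivity, fun δ t hδ hδr ht => ?_⟩
  have hpp : pp δ t - ρ = ⟨δ, t - y⟩ := by
    apply Complex.ext <;> simp [pp, hρ]
  have hnsq : ‖pp δ t - ρ‖ ^ 2 = δ ^ 2 + (t - y) ^ 2 := by
    rw [hpp, ← Complex.normSq_eq_norm_sq, Complex.normSq_mk]
    ring
  have hpos : 0 < δ ^ 2 + (t - y) ^ 2 := by positivity
  have hne : pp δ t ≠ ρ := by
    intro h
    rw [h, sub_self, norm_zero] at hnsq
    nlinarith
  have hdist : dist (pp δ t) ρ < r := by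
    rw [dist_eq_norm, hpp]
    calc ‖(⟨δ, t - y⟩ : ℂ)‖ ≤ |δ| + |t - y| := Complex.norm_le_abs_re_add_abs_im _
      _ < r / 2 + r / 2 := by
          rw [abs_of_pos hδ]
          exact add_lt_add hδr ht
      _ = r := by ring
  have h7 := h6 hdist hne
  have h8 : slope (fun s : ℂ => s * riemannZeta s) ρ (pp δ t) =
      (pp δ t * riemannZeta (pp δ t)) / (pp δ t - ρ) := by
    rw [slope_def_field]
    simp only [hz, mul_zero, sub_zero]
  rw [h8, norm_div, inv_div, div_pow, hnsq] at h7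
  rw [norm_inv, inv_pow]
  have h9 : (δ ^ 2 + (t - y) ^ 2) * (‖pp δ t * riemannZeta (pp δ t)‖ ^ 2)⁻¹ < Ac y ^ 2 + e := by
    rw [← div_eq_mul_inv]
    exact h7
  rw [le_div_iff₀ hpos, mul_comm]
  exact h9.le

lemma mid_bd (a b : ℝ) (hK : ∀ t ∈ Icc a b, riemannZeta (⟨1 / 2, t⟩ : ℂ) ≠ 0) :
    ∃ C : ℝ, 0 ≤ C ∧ ∃ η : ℝ, 0 < η ∧ ∀ δ t : ℝ, 0 < δ → δ < η → t ∈ Icc a b →
      ‖(pp δ t * riemannZeta (pp δ t))⁻¹‖ ^ 2 ≤ C := by
  have hc : ∀ t ∈ Icc a b, ContinuousAt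
      (fun z : ℝ × ℝ => ‖(pp z.1 z.2 * riemannZeta (pp z.1 z.2))⁻¹‖ ^ 2) (0, t) := by
    intro t ht
    have hne1 : pp 0 t ≠ 1 := by
      intro h
      have := congrArg Complex.re h
      simp [pp] at this
    have hne0 : pp 0 t ≠ 0 := by
      intro h
      have := congrArg Complex.re h
      simp [pp] at this
    have hz : riemannZeta (pp 0 t) ≠ 0 := by
      have := hK t ht
      unfold pp
      rwa [add_zero]
    have c1 : ContinuousAt (fun z : ℝ × ℝ => pp z.1 z.2) (0, t) := pp_cont.continuousAt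
    have c2 : ContinuousAt (fun z : ℝ × ℝ => riemannZeta (pp z.1 z.2)) (0, t) :=
      ContinuousAt.comp (f := fun z : ℝ × ℝ => pp z.1 z.2) (g := riemannZeta)
        (differentiableAt_riemannZeta hne1).continuousAt c1
    exact (((c1.mul c2).inv₀ (mul_ne_zero hne0 hz)).norm).pow 2
  obtain ⟨C, hC⟩ : ∃ C : ℝ, ∀ t ∈ Icc a b,
      ‖(pp 0 t * riemannZeta (pp 0 t))⁻¹‖ ^ 2 ≤ C := by
    have hcon : ContinuousOn (fun t : ℝ => ‖(pp 0 t * riemannZeta (pp 0 t))⁻¹‖ ^ 2) (Icc a b) := by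
      intro t ht
      have := ContinuousAt.comp (f := fun t : ℝ => ((0 : ℝ), t)) (x := t) (hc t ht)
        (by fun_prop)
      exact this.continuousWithinAt
    obtain ⟨C, hC⟩ := isCompact_Icc.bddAbove_image hcon
    exact ⟨C, fun t ht => hC ⟨t, ht, rfl⟩⟩
  have hev : ∀ᶠ δ : ℝ in 𝓝 0, ∀ t ∈ Icc a b,
      ‖(pp δ t * riemannZeta (pp δ t))⁻¹‖ ^ 2 < |C| + 1 := by
    apply isCompact_Icc.eventually_forall_of_forall_eventually
      (P := fun δ t => ‖(pp δ t * riemannZeta (pp δ t))⁻¹‖ ^ 2 < |C| + 1)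
    intro t ht
    exact (hc t ht).eventually (gt_mem_nhds
      (lt_of_le_of_lt ((hC t ht).trans (le_abs_self C)) (lt_add_one _)))
  rw [Metric.eventually_nhds_iff] at hev
  obtain ⟨η, hη, h1⟩ := hev
  refine ⟨|C| + 1, by positivity, η, hη, fun δ t hδ hδη ht => ?_⟩
  refine (h1 ?_ t ht).le
  rw [Real.dist_eq, sub_zero, abs_of_pos hδ]
  exact hδη

lemma int1 (a b c δ : ℝ) (hδ : 0 < δ) :
    ∫ t in a..b, 1 / (δ ^ 2 + (t - c) ^ 2) =
      δ⁻¹ * Real.arctan ((b - c) / δ) - δ⁻¹ * Real.arctan ((a - c) / δ) := by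
  have hcont : Continuous (fun t : ℝ => 1 / (δ ^ 2 + (t - c) ^ 2)) :=
    continuous_const.div (by fun_prop) (fun t => by positivity)
  rw [intervalIntegral.integral_eq_sub_of_hasDerivAt
    (f := fun t => δ⁻¹ * Real.arctan ((t - c) / δ)) (fun t _ => ?_)
    (hcont.intervalIntegrable _ _)]
  have h1 : HasDerivAt (fun t : ℝ => (t - c) / δ) (1 / δ) t :=
    ((hasDerivAt_id t).sub_const c).div_const δ
  have h2 := (h1.arctan).const_mul δ⁻¹
  have h3 : δ⁻¹ * (1 / (1 + ((t - c) / δ) ^ 2) * (1 / δ)) = 1 / (δ ^ 2 + (t - c) ^ 2) := by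
    field_simp
  rw [← h3]
  exact h2

theorem gap (a b : ℝ) (h : Cons a b) (ha : deriv riemannZeta (⟨1 / 2, a⟩ : ℂ) ≠ 0)
    (hb : deriv riemannZeta (⟨1 / 2, b⟩ : ℂ) ≠ 0) (ε : ℝ) (hε : 0 < ε) :
    ∃ δ0 : ℝ, 0 < δ0 ∧ ∀ δ h : ℝ, 0 < δ → δ < δ0 → 0 < h → h < δ0 →
      ∫⁻ t in Set.Ioo a b, ‖GG h 0 (⟨1 / 2 + δ, t⟩ : ℂ)‖ₑ ^ 2 ≤
        ENNReal.ofReal ((Real.pi / 2 * (Ac a ^ 2 + Ac b ^ 2) + ε) / δ) := by
  obtain ⟨hab, hza, hzb, hmid⟩ := h
  have hπ := Real.pi_pos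
  set e : ℝ := ε / (4 * Real.pi) with he
  have hepos : 0 < e := by positivity
  obtain ⟨η1, hη1, B1⟩ := local_bd a hza ha e hepos
  obtain ⟨η2, hη2, B2⟩ := local_bd b hzb hb e hepos
  obtain ⟨C, hC, η3, hη3, B3⟩ := mid_bd (a + η1 / 2) (b - η2 / 2) (fun t ht =>
    hmid t ⟨by linarith [ht.1], by linarith [ht.2]⟩)
  set A : ℝ := Ac a ^ 2 + Ac b ^ 2 with hA
  have hA0 : 0 ≤ A := by positivity
  set Bc : ℝ := Real.pi / 2 * A + ε / 2 with hBc
  have hBc0 : 0 < Bc := by positivity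
  have hexp : ∃ η4 : ℝ, 0 < η4 ∧ ∀ h : ℝ, 0 < h → h < η4 → Real.exp (h ^ 2) * Bc ≤ Bc + ε / 2 := by
    have hc : Tendsto (fun h : ℝ => Real.exp (h ^ 2) * Bc) (𝓝 0) (𝓝 Bc) := by
      have : Continuous (fun h : ℝ => Real.exp (h ^ 2) * Bc) := by fun_prop
      have h2 := this.tendsto 0
      simpa using h2
    have h3 := hc.eventually (gt_mem_nhds (by linarith : Bc < Bc + ε / 2))
    rw [Metric.eventually_nhds_iff] at h3
    obtain ⟨η4, hη4, h4⟩ := h3
    refine ⟨η4, hη4, fun h hh hh4 => (h4 ?_).le⟩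
    rw [Real.dist_eq, sub_zero, abs_of_pos hh]
    exact hh4
  obtain ⟨η4, hη4, B4⟩ := hexp
  set η5 : ℝ := ε / (4 * (C * (b - a) + 1)) with hη5
  have hCb : 0 ≤ C * (b - a) := mul_nonneg hC (by linarith)
  have hη5p : 0 < η5 := by positivity
  refine ⟨min (min (min η1 η2) (min η3 η4)) (min η5 (1 / 2)), by positivity, ?_⟩
  intro δ h hδ hδ0 hh hh0
  simp only [lt_min_iff] at hδ0 hh0
  obtain ⟨⟨⟨d1, d2⟩, ⟨d3, -⟩⟩, ⟨d5, d6⟩⟩ := hδ0
  obtain ⟨⟨-, ⟨-, g4⟩⟩, -⟩ := hh0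
  let m : ℝ → ℝ := fun t => Real.exp (h ^ 2) *
    ((Ac a ^ 2 + e) * (1 / (δ ^ 2 + (t - a) ^ 2)) + (Ac b ^ 2 + e) * (1 / (δ ^ 2 + (t - b) ^ 2)) + C)
  have c1 : Continuous (fun t : ℝ => 1 / (δ ^ 2 + (t - a) ^ 2)) :=
    continuous_const.div (by fun_prop) (fun t => by positivity)
  have c2 : Continuous (fun t : ℝ => 1 / (δ ^ 2 + (t - b) ^ 2)) :=
    continuous_const.div (by fun_prop) (fun t => by positivity)
  have hmc : Continuous m := by
    simp only [m]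
    exact continuous_const.mul (((continuous_const.mul c1).add (continuous_const.mul c2)).add
      continuous_const)
  have hm0 : ∀ t, 0 ≤ m t := fun t => by
    simp only [m]
    positivity
  have hle : ∀ t ∈ Ioo a b, ‖GG h 0 (⟨1 / 2 + δ, t⟩ : ℂ)‖ ^ 2 ≤ m t := by
    intro t ht
    have e1 : ‖GG h 0 (⟨1 / 2 + δ, t⟩ : ℂ)‖ ^ 2 = ‖EE h 0 (pp δ t)‖ ^ 2 *
        ‖(pp δ t * riemannZeta (pp δ t))⁻¹‖ ^ 2 := by
      unfold GG
      rw [div_eq_mul_inv, norm_mul, mul_pow]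
      rfl
    rw [e1]
    simp only [m]
    refine mul_le_mul (EE_le h δ t hδ d6) ?_ (by positivity) (by positivity)
    have q1 : 0 ≤ (Ac a ^ 2 + e) * (1 / (δ ^ 2 + (t - a) ^ 2)) := by positivity
    have q2 : 0 ≤ (Ac b ^ 2 + e) * (1 / (δ ^ 2 + (t - b) ^ 2)) := by positivity
    by_cases k1 : t - a < η1
    · have := B1 δ t hδ d1 (by rw [abs_of_pos (by linarith [ht.1])]; exact k1)
      rw [div_eq_mul_one_div] at this
      linarith
    · by_cases k2 : b - t < η2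
      · have := B2 δ t hδ d2 (by rw [abs_sub_comm, abs_of_pos (by linarith [ht.2])]; exact k2)
        rw [div_eq_mul_one_div] at this
        linarith
      · have := B3 δ t hδ d3 ⟨by linarith, by linarith⟩
        linarith
  have hint : ∫ t in a..b, m t ≤ (Real.pi / 2 * A + ε) / δ := by
    have i1 := int1 a b a δ hδ
    have i2 := int1 a b b δ hδ
    have e1 : ∫ t in a..b, m t = Real.exp (h ^ 2) *
        ((Ac a ^ 2 + e) * (∫ t in a..b, 1 / (δ ^ 2 + (t - a) ^ 2)) +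
          (Ac b ^ 2 + e) * (∫ t in a..b, 1 / (δ ^ 2 + (t - b) ^ 2)) + C * (b - a)) := by
      simp only [m]
      rw [intervalIntegral.integral_const_mul, intervalIntegral.integral_add,
        intervalIntegral.integral_add, intervalIntegral.integral_const_mul,
        intervalIntegral.integral_const_mul, intervalIntegral.integral_const, smul_eq_mul,
        mul_comm (b - a) C]
      · exact (continuous_const.mul c1).intervalIntegrable _ _
      · exact (continuous_const.mul c2).intervalIntegrable _ _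
      · exact ((continuous_const.mul c1).add (continuous_const.mul c2)).intervalIntegrable _ _
      · exact continuous_const.intervalIntegrable _ _
    rw [e1, i1, i2, sub_self, sub_self, zero_div, Real.arctan_zero, mul_zero, sub_zero, zero_sub]
    have e2 : Real.arctan ((a - b) / δ) = - Real.arctan ((b - a) / δ) := by
      rw [← Real.arctan_neg]
      congr 1
      ring
    rw [e2]
    have harc : Real.arctan ((b - a) / δ) ≤ Real.pi / 2 := (Real.arctan_lt_pi_div_two _).le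
    have hinner : (Ac a ^ 2 + e) * (δ⁻¹ * Real.arctan ((b - a) / δ)) +
        (Ac b ^ 2 + e) * (-(δ⁻¹ * -Real.arctan ((b - a) / δ))) + C * (b - a) ≤ Bc / δ := by
      have w1 : δ⁻¹ * Real.arctan ((b - a) / δ) ≤ δ⁻¹ * (Real.pi / 2) :=
        mul_le_mul_of_nonneg_left harc (by positivity)
      have w2 : (Ac a ^ 2 + e) * (δ⁻¹ * Real.arctan ((b - a) / δ)) ≤
          (Ac a ^ 2 + e) * (δ⁻¹ * (Real.pi / 2)) := mul_le_mul_of_nonneg_left w1 (by positivity)
      have w3 : (Ac b ^ 2 + e) * (δ⁻¹ * Real.arctan ((b - a) / δ)) ≤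
          (Ac b ^ 2 + e) * (δ⁻¹ * (Real.pi / 2)) := mul_le_mul_of_nonneg_left w1 (by positivity)
      have w4 : C * (b - a) ≤ (ε / 4) / δ := by
        rw [le_div_iff₀ hδ]
        have : δ * (4 * (C * (b - a) + 1)) ≤ ε := by
          have := d5.le
          rw [hη5, le_div_iff₀ (by positivity)] at this
          exact this
        nlinarith
      have w5 : -(δ⁻¹ * -Real.arctan ((b - a) / δ)) = δ⁻¹ * Real.arctan ((b - a) / δ) := by ring
      rw [w5]
      have w6 : (Ac a ^ 2 + e) * (δ⁻¹ * (Real.pi / 2)) + (Ac b ^ 2 + e) * (δ⁻¹ * (Real.pi / 2)) =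
          (Real.pi / 2 * A + ε / 4) / δ := by
        have : e * Real.pi = ε / 4 := by
          rw [he]
          field_simp
        rw [hA, div_eq_mul_inv _ δ]
        linear_combination δ⁻¹ * this
      have w7 : (Real.pi / 2 * A + ε / 4) / δ + (ε / 4) / δ = Bc / δ := by
        rw [hBc, ← add_div]
        congr 1
        ring
      linarith
    calc Real.exp (h ^ 2) * _ ≤ Real.exp (h ^ 2) * (Bc / δ) :=
          mul_le_mul_of_nonneg_left hinner (by positivity)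
      _ = (Real.exp (h ^ 2) * Bc) / δ := by ring
      _ ≤ (Bc + ε / 2) / δ := by
          apply div_le_div_of_nonneg_right (B4 h hh g4) hδ.le
      _ = (Real.pi / 2 * A + ε) / δ := by
          rw [hBc]
          congr 1
          ring
  calc ∫⁻ t in Set.Ioo a b, ‖GG h 0 (⟨1 / 2 + δ, t⟩ : ℂ)‖ₑ ^ 2
      ≤ ∫⁻ t in Set.Ioo a b, ENNReal.ofReal (m t) := by
        refine setLIntegral_mono' measurableSet_Ioo (fun t ht => ?_)
        rw [← ofReal_norm, ← ENNReal.ofReal_pow (norm_nonneg _)]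
        exact ENNReal.ofReal_le_ofReal (hle t ht)
    _ = ENNReal.ofReal (∫ t in Set.Ioo a b, m t) := by
        rw [ofReal_integral_eq_lintegral_ofReal]
        · exact (hmc.continuousOn.integrableOn_compact isCompact_Icc).mono_set Ioo_subset_Icc_self
        · exact Eventually.of_forall hm0
    _ ≤ ENNReal.ofReal ((Real.pi / 2 * A + ε) / δ) := by
        apply ENNReal.ofReal_le_ofReal
        rw [← integral_Ioc_eq_integral_Ioo, ← intervalIntegral.integral_of_le hab.le]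
        exact hint

end Pool.Agent.W806.WM
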